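import Pool.Agent.H21.L.R_seed8.W189.ML.LogKer
import Pool.Agent.H21.L.R_seed8.W334.BSD.Landau

/-! The abstract theorem for Mittag-Leffler means in an arbitrary direction. -/

set_option autoImplicit false

namespace Pool.Agent.W524.RY

open Complex MeasureTheory Filter Topology Set
open scoped Interval
open Pool.Agent.W189.ML

/-- a branch of the logarithm near a real interval -/
theorem branch {x₁ : ℝ} (h1 : x₁ ≤ 3) {Q : ℂ → ℂ}
    (hQ : ∀ x ∈ Icc x₁ 3, AnalyticAt ℂ Q (x : ℂ)) (hQ0 : ∀ x ∈ Icc x₁ 3, Q (x : ℂ) ≠ 0) :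
    ∃ δ > 0, ∃ q : ℂ → ℂ, ∃ M : ℝ, 0 ≤ M ∧
      (∀ w : ℂ, x₁ ≤ w.re → w.re ≤ 3 → |w.im| ≤ δ →
        ‖q w‖ ≤ M ∧ DifferentiableAt ℂ q w ∧ exp (q w) = Q w) ∧
      ∀ᶠ w in 𝓝 (3 : ℂ), exp (q w) = Q w := by
  set Kc : Set ℂ := (fun x : ℝ => (x : ℂ)) '' Icc x₁ 3 with hKc
  have hKcc : IsCompact Kc := isCompact_Icc.image (by fun_prop)
  set U : Set ℂ := {w | AnalyticAt ℂ Q w ∧ Q w ≠ 0} with hU
  have hUo : IsOpen U := by
    rw [isOpen_iff_mem_nhds]
    rintro w ⟨hw1, hw2⟩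
    filter_upwards [hw1.eventually_analyticAt,
      hw1.continuousAt.eventually_ne hw2] with v h3 h4
    exact ⟨h3, h4⟩
  have hKU : Kc ⊆ U := by
    rintro _ ⟨x, hx, rfl⟩
    exact ⟨hQ x hx, hQ0 x hx⟩
  obtain ⟨δ₂, hδ₂, hsub⟩ := hKcc.exists_cthickening_subset_open hUo hKU
  have hKconv : Convex ℝ Kc := by
    have h : IsLinearMap ℝ (fun x : ℝ => (x : ℂ)) :=
      ⟨fun x y => Complex.ofReal_add x y, fun c x => by simp⟩
    exact (convex_Icc x₁ 3).is_linear_image h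
  have hne : Kc.Nonempty := ⟨_, 3, ⟨h1, le_rfl⟩, rfl⟩
  have hto : IsOpen (Metric.thickening δ₂ Kc) := Metric.isOpen_thickening
  have htc : Convex ℝ (Metric.thickening δ₂ Kc) := hKconv.thickening δ₂
  have htn : (Metric.thickening δ₂ Kc).Nonempty :=
    hne.mono (Metric.self_subset_thickening hδ₂ _)
  have hts : Metric.thickening δ₂ Kc ⊆ U := (Metric.thickening_subset_cthickening _ _).trans hsub
  obtain ⟨q, hq1, hq2⟩ := Pool.Agent.W334.BSD.exists_log hto htc htn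
    (Φ := Q) (fun w hw => (hts hw).1.differentiableAt.differentiableWithinAt)
    (fun w hw => (hts hw).2)
  have hcc : IsCompact (Metric.cthickening (δ₂ / 2) Kc) := hKcc.cthickening
  have hcs : Metric.cthickening (δ₂ / 2) Kc ⊆ Metric.thickening δ₂ Kc :=
    Metric.cthickening_subset_thickening' hδ₂ (by linarith) _
  obtain ⟨M, hM⟩ := hcc.exists_bound_of_continuousOn (hq1.continuousOn.mono hcs)
  have hmem : ∀ w : ℂ, x₁ ≤ w.re → w.re ≤ 3 → |w.im| ≤ δ₂ / 2 →
      w ∈ Metric.cthickening (δ₂ / 2) Kc := by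
    intro w h3 h4 h5
    refine Metric.mem_cthickening_of_dist_le w (w.re : ℂ) (δ₂ / 2) Kc ⟨w.re, ⟨h3, h4⟩, rfl⟩ ?_
    rw [Complex.dist_eq]
    have : w - (w.re : ℂ) = (w.im : ℂ) * I := by
      apply Complex.ext <;> simp
    rw [this, norm_mul, Complex.norm_I, mul_one, Complex.norm_real, Real.norm_eq_abs]
    exact h5
  refine ⟨δ₂ / 2, by positivity, q, |M|, abs_nonneg _, fun w h3 h4 h5 => ?_, ?_⟩
  · have h6 := hmem w h3 h4 h5
    exact ⟨(hM w h6).trans (le_abs_self M), hq1.differentiableAt (hto.mem_nhds (hcs h6)),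
      hq2 w (hcs h6)⟩
  · have h3 : (3 : ℂ) ∈ Metric.thickening δ₂ Kc :=
      Metric.self_subset_thickening hδ₂ _ ⟨3, ⟨h1, le_rfl⟩, by simp⟩
    filter_upwards [hto.mem_nhds h3] with w hw using hq2 w hw

/-- a continuous function with values in `2πiℤ` is locally constant -/
theorem loc_const {d : ℂ → ℂ} {p : ℂ} (hd : ContinuousAt d p)
    (he : ∀ᶠ w in 𝓝 p, exp (d w) = 1) : ∀ᶠ w in 𝓝 p, d w = d p := by
  have hsmall : ∀ᶠ w in 𝓝 p, ‖d w - d p‖ < 1 := by
    have h1 : ContinuousAt (fun w => d w - d p) p := hd.sub continuousAt_const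
    have h2 := h1.norm
    have h3 : ‖d p - d p‖ < 1 := by simp
    exact h2.eventually (gt_mem_nhds h3)
  have hp := he.self_of_nhds
  filter_upwards [he, hsmall] with w e1 e2
  have e3 : exp (d w - d p) = 1 := by rw [Complex.exp_sub, e1, hp, div_one]
  obtain ⟨n, hn⟩ := Complex.exp_eq_one_iff.1 e3
  by_cases hn0 : n = 0
  · rw [hn0] at hn
    simp at hn
    exact sub_eq_zero.1 hn
  · exfalso
    rw [hn] at e2
    rw [norm_mul, norm_mul, norm_mul, Complex.norm_I, Complex.norm_real, Real.norm_eq_abs,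
      abs_of_pos Real.pi_pos, Complex.norm_intCast] at e2
    have : (1 : ℝ) ≤ |(n : ℝ)| := by
      have := Int.one_le_abs hn0
      exact_mod_cast this
    have h3 := Real.pi_gt_three
    norm_num at e2
    nlinarith

/-- **Main abstract theorem.** -/
theorem main_abs {S G Q : ℂ → ℂ} {κ CG CS x₀ x₁ : ℝ} (hκ : 0 < κ) (h0 : 0 ≤ x₁)
    (h01 : x₁ ≤ x₀) (h1 : x₀ ≤ 1) (m : ℤ)
    (Gd : ∀ ζ : ℂ, 0 < ζ.re → |ζ.im| ≤ κ * ζ.re → DifferentiableAt ℂ G ζ)
    (Gb : ∀ ζ : ℂ, 0 < ζ.re → |ζ.im| ≤ κ * ζ.re → ‖G ζ‖ ≤ CG)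
    (Sc : ContinuousOn S {ζ | 3 ≤ ζ.re ∧ |ζ.im| ≤ κ}) (Sb : ∀ ζ : ℂ, 3 ≤ ζ.re → |ζ.im| ≤ κ → ‖S ζ‖ ≤ CS)
    (Sc3 : ContinuousAt S 3)
    (hQ : ∀ x ∈ Icc x₁ 3, AnalyticAt ℂ Q (x : ℂ)) (hQ0 : ∀ x ∈ Icc x₁ 3, Q (x : ℂ) ≠ 0)
    (hΦ : ∀ᶠ w in 𝓝 (3 : ℂ), exp (G w - S w) = (w - x₀) ^ m * Q w) :
    ∃ C T₀ : ℝ, ∀ T ≥ T₀, ‖J (3 * T) (fun z => S (z / T)) - m * ((Real.log T + grow (x₀ * T) : ℝ) : ℂ)‖ ≤
      C * Real.exp (Real.exp (x₁ * T)) := by
  have hx0 : 0 ≤ x₀ := h0.trans h01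
  obtain ⟨δ₂, hδ₂, q0, M0, hM00, hq0, hq0'⟩ := branch (by linarith) hQ hQ0
  -- the right branch
  have hs3 : (3 : ℂ) - x₀ ∈ slitPlane := by
    left
    simp
    linarith
  have hG3 : DifferentiableAt ℂ G 3 := Gd 3 (by simp) (by simp; positivity)
  set d : ℂ → ℂ := fun w => G w - S w - m * log (w - x₀) - q0 w with hd
  have hdc : ContinuousAt d 3 := by
    refine ContinuousAt.sub (ContinuousAt.sub (ContinuousAt.sub hG3.continuousAt Sc3) ?_) ?_
    · exact continuousAt_const.mul (ContinuousAt.clog (by fun_prop) hs3)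
    · exact (hq0 3 (by simp; linarith) (by simp) (by simp; positivity)).2.1.continuousAt
  have hexp : ∀ᶠ w in 𝓝 (3 : ℂ), exp (d w) = 1 := by
    have e1 : ∀ᶠ w in 𝓝 (3 : ℂ), w - (x₀ : ℂ) ∈ slitPlane := by
      have : ContinuousAt (fun w : ℂ => w - (x₀ : ℂ)) 3 := by fun_prop
      exact this.eventually (isOpen_slitPlane.mem_nhds hs3)
    filter_upwards [hΦ, e1, hq0'] with w h3 h4 h5
    have h6 := slitPlane_ne_zero h4
    have h7 : Q w ≠ 0 := by rw [← h5]; exact Complex.exp_ne_zero _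
    rw [hd]
    simp only
    rw [Complex.exp_sub, Complex.exp_sub, h3, Complex.exp_int_mul, Complex.exp_log h6, h5]
    have : (w - (x₀ : ℂ)) ^ m ≠ 0 := zpow_ne_zero _ h6
    field_simp
  set c0 : ℂ := d 3 with hc0
  have hloc := loc_const hdc hexp
  set q : ℂ → ℂ := fun w => q0 w + c0 with hq
  set M : ℝ := M0 + ‖c0‖ with hM'
  have hM0 : 0 ≤ M := by positivity
  have hqd : ∀ w : ℂ, x₁ ≤ w.re → w.re ≤ 3 → |w.im| ≤ δ₂ → DifferentiableAt ℂ q w :=
    fun w h3 h4 h5 => (hq0 w h3 h4 h5).2.1.add_const _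
  have hqM : ∀ w : ℂ, x₁ ≤ w.re → w.re ≤ 3 → |w.im| ≤ δ₂ → ‖q w‖ ≤ M := fun w h3 h4 h5 =>
    (norm_add_le _ _).trans (add_le_add (hq0 w h3 h4 h5).1 le_rfl)
  obtain ⟨δ, hδ, hbr⟩ : ∃ δ > 0, ∀ w : ℂ, dist w 3 < δ →
      G w - S w = m * log (w - x₀) + q w := by
    obtain ⟨δ, hδ, h3⟩ := Metric.eventually_nhds_iff.1 hloc
    refine ⟨δ, hδ, fun w hw => ?_⟩
    have h4 := h3 hw
    rw [← hc0, hd] at h4
    simp only at h4
    rw [hq]
    linear_combination h4
  set a0 : ℝ := Real.pi / κ + 1 with ha0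
  have hpi := Real.pi_pos
  have ha0' : 1 ≤ a0 := by
    have : 0 < Real.pi / κ := by positivity
    linarith
  have ha00 : 0 ≤ a0 := by linarith
  set C3 : ℝ := |CG| + |CS| with hC3
  have hC30 : 0 ≤ C3 := by positivity
  refine ⟨(Real.exp (Real.exp a0) + 1) * |CG| + |(m : ℝ)| * (‖J 1 log‖ + 8) + 2 * M + C3,
    Real.pi / δ + Real.pi / δ₂ + Real.pi / κ + 1 + a0, fun T hT => ?_⟩
  have hq1 : 0 < Real.pi / δ := by positivity
  have hq2 : 0 < Real.pi / δ₂ := by positivity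
  have hq3 : 0 < Real.pi / κ := by positivity
  have hT1 : 1 ≤ T := by linarith
  have hT0 : 0 < T := by linarith
  have hTδ : Real.pi / T < δ := by
    rw [div_lt_iff₀ hT0, mul_comm, ← div_lt_iff₀ hδ]; linarith
  have hTδ₂ : Real.pi / T ≤ δ₂ := by
    rw [div_le_iff₀ hT0, mul_comm, ← div_le_iff₀ hδ₂]; linarith
  have hTκ : Real.pi / T ≤ κ := by
    rw [div_le_iff₀ hT0, mul_comm, ← div_le_iff₀ hκ]; linarith
  set b : ℝ := 3 * T with hb
  have hb0 : 0 ≤ b := by positivity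
  have hb1 : 1 ≤ b := by linarith
  have hb2 : 2 * T ≤ b := by linarith
  have hab0 : a0 ≤ b := by linarith
  have hTc : (T : ℂ) ≠ 0 := by exact_mod_cast hT0.ne'
  have hdre : ∀ z : ℂ, (z / T).re = z.re / T := fun z => by simp
  have hdim : ∀ z : ℂ, (z / T).im = z.im / T := fun z => by simp
  -- sector bound on the half strip
  have hreg : ∀ z ∈ HS a0, 0 < (z / T).re ∧ |(z / T).im| ≤ κ * (z / T).re := by
    intro z hz
    rw [hdre, hdim, abs_div, abs_of_pos hT0, ← mul_div_assoc]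
    have h3 := hz.1
    refine ⟨div_pos (by linarith) hT0, div_le_div_of_nonneg_right (hz.2.trans ?_) hT0.le⟩
    have h4 : Real.pi / κ ≤ z.re := by linarith
    rwa [div_le_iff₀ hκ, mul_comm] at h4
  have hsec : ∀ z ∈ HS a0, ‖G (z / T)‖ ≤ |CG| := fun z hz =>
    (Gb _ (hreg z hz).1 (hreg z hz).2).trans (le_abs_self _)
  have hGd : ∀ z ∈ HS a0, DifferentiableAt ℂ (fun z : ℂ => G (z / T)) z := fun z hz =>
    DifferentiableAt.comp (g := G) (f := fun z : ℂ => z / T) z (Gd _ (hreg z hz).1 (hreg z hz).2)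
      (by fun_prop)
  have hGdiff : DifferentiableOn ℂ (fun z : ℂ => G (z / T)) (HS a0) := fun z hz =>
    (hGd z hz).differentiableWithinAt
  have admG : Adm a0 (fun z : ℂ => G (z / T)) :=
    ⟨hGdiff.continuousOn, |CG|, 0, abs_nonneg _, le_rfl, fun z hz => by
      have := hsec z hz; linarith⟩
  have hre3 : ∀ z ∈ HS b, 3 ≤ (z / T).re ∧ |(z / T).im| ≤ κ := by
    intro z hz
    rw [hdre, hdim, le_div_iff₀ hT0, abs_div, abs_of_pos hT0]
    exact ⟨hz.1, (div_le_div_of_nonneg_right hz.2 hT0.le).trans hTκ⟩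
  have admS : Adm b (fun z : ℂ => S (z / T)) := by
    refine ⟨Sc.comp (by fun_prop) fun z hz => hre3 z hz, |CS|, 0,
      abs_nonneg _, le_rfl, fun z hz => ?_⟩
    have := (Sb _ (hre3 z hz).1 (hre3 z hz).2).trans (le_abs_self CS)
    linarith
  -- E2, E3
  have E3 : J b (fun z => G (z / T)) = J a0 (fun z => G (z / T)) :=
    (J_shift' ha00 hab0 admG hGdiff).symm
  have E3' := norm_J_le (a := a0) ha00 hsec
  have E2 : J b (fun z => G (z / T) - S (z / T)) =
      J a0 (fun z => G (z / T)) - J b (fun z => S (z / T)) := by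
    rw [J_sub hb0 (admG.mono hab0) admS, E3]
  -- E4
  have hellb : ∀ z ∈ HS b, ‖G (z / T) - S (z / T)‖ ≤ C3 := by
    intro z hz
    refine (norm_sub_le _ _).trans (add_le_add (hsec z (HS_mono hab0 hz)) ?_)
    exact (Sb _ (hre3 z hz).1 (hre3 z hz).2).trans (le_abs_self CS)
  have admL : Adm b (fun z => G (z / T) - S (z / T)) :=
    ⟨(admG.mono hab0).cont.sub admS.cont, C3, 0, hC30, le_rfl, fun z hz => by
      have := hellb z hz; linarith⟩
  have E4 : ‖∫ x in Ioi b, rho (fun z => G (z / T) - S (z / T)) x‖ ≤ C3 := by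
    have := norm_rays_le (Φ := fun z => G (z / T) - S (z / T)) hb0 hC30 le_rfl (s := Ioi b)
      (fun x hx => by have := hellb _ (up_mem (le_of_lt hx)); linarith)
      (fun x hx => by have := hellb _ (down_mem (le_of_lt hx)); linarith) subset_rfl measurableSet_Ioi
    linarith
  obtain ⟨admlog, hlogb⟩ := adm_log (b := b) hT1 hx0 h1 hb2
  have E6 : ‖∫ x in Ioi b, rho (fun z => log (z / T - x₀)) x‖ ≤ 8 := by
    have := norm_rays_le (Φ := fun z => log (z / T - x₀)) (A := 7) (B := 1) hb0 (by norm_num)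
      (by norm_num) (s := Ioi b)
      (fun x hx => by have := hlogb _ (up_mem (le_of_lt hx)); simpa using this)
      (fun x hx => by have := hlogb _ (down_mem (le_of_lt hx)); simpa using this)
      subset_rfl measurableSet_Ioi
    linarith
  have E7 := J_log (b := b) hT1 hx0 h1 hb2
  -- the vertical part of `q`
  have E8 : V b (fun z => G (z / T) - S (z / T)) - m * V b (fun z => log (z / T - x₀)) =
      V b (fun z => q (z / T)) := by
    have admm : Adm b (fun z => (m : ℂ) * log (z / T - x₀)) := by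
      refine ⟨continuousOn_const.mul admlog.cont, |(m : ℝ)| * 7, |(m : ℝ)| * 1, by positivity,
        by positivity, fun z hz => ?_⟩
      rw [norm_mul, Complex.norm_intCast]
      have := hlogb z hz
      calc |(m : ℝ)| * ‖log (z / T - x₀)‖ ≤ |(m : ℝ)| * (7 + 1 * z.re) := by gcongr
        _ = _ := by ring
    rw [← V_const_mul, ← V_sub admL admm]
    refine V_congr fun y hy => ?_
    have h3 : dist (((b : ℂ) + y * I) / T) 3 < δ := by
      rw [Complex.dist_eq]
      have : ((b : ℂ) + y * I) / T - 3 = ((y / T : ℝ) : ℂ) * I := by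
        rw [hb]
        push_cast
        field_simp
        ring
      rw [this, norm_mul, Complex.norm_I, mul_one, Complex.norm_real, Real.norm_eq_abs, abs_div,
        abs_of_pos hT0]
      exact (div_le_div_of_nonneg_right hy hT0.le).trans_lt hTδ
    rw [hbr _ h3]
    ring
  have hab : x₁ * T ≤ b := by nlinarith
  have ha0 : 0 ≤ x₁ * T := by positivity
  have hsubr : ∀ z ∈ [[x₁ * T, b]] ×ℂ [[-Real.pi, Real.pi]],
      x₁ ≤ (z / T).re ∧ (z / T).re ≤ 3 ∧ |(z / T).im| ≤ δ₂ := by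
    intro z hz
    rw [mem_reProdIm, uIcc_of_le hab, uIcc_of_le (by linarith)] at hz
    rw [hdre, hdim]
    refine ⟨?_, ?_, ?_⟩
    · rw [le_div_iff₀ hT0]; exact hz.1.1
    · rw [div_le_iff₀ hT0]; exact hz.1.2
    · rw [abs_div, abs_of_pos hT0]
      exact (div_le_div_of_nonneg_right (abs_le.2 hz.2) hT0.le).trans hTδ₂
  have E9 : V b (fun z => q (z / T)) = V (x₁ * T) (fun z => q (z / T)) +
      ∫ x in (x₁ * T)..b, rho (fun z => q (z / T)) x := by
    refine V_shift fun z hz => ?_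
    obtain ⟨h3, h4, h5⟩ := hsubr z hz
    have h6 : DifferentiableAt ℂ (fun z : ℂ => q (z / T)) z :=
      DifferentiableAt.comp (g := q) (f := fun z : ℂ => z / T) z
        (hqd _ h3 h4 h5) (by fun_prop)
    exact h6.differentiableWithinAt
  have E10 : ‖V (x₁ * T) (fun z => q (z / T))‖ ≤ Real.exp (Real.exp (x₁ * T)) * M := by
    refine norm_V_le fun y hy => ?_
    obtain ⟨h3, h4, h5⟩ := hsubr ((x₁ * T : ℝ) + y * I) (by
      rw [mem_reProdIm, uIcc_of_le hab, uIcc_of_le (by linarith)]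
      refine ⟨⟨?_, ?_⟩, ?_⟩
      · simp
      · simp; linarith
      · simpa using abs_le.1 hy)
    exact hqM _ h3 h4 h5
  have E11 : ‖∫ x in (x₁ * T)..b, rho (fun z => q (z / T)) x‖ ≤ M := by
    rw [intervalIntegral.integral_of_le hab]
    have hu : ∀ x ∈ Ioc (x₁ * T) b, ‖q ((x + Real.pi * I) / T)‖ ≤ M := by
      intro x hx
      obtain ⟨h3, h4, h5⟩ := hsubr (x + Real.pi * I) (by
        rw [mem_reProdIm, uIcc_of_le hab, uIcc_of_le (by linarith)]
        refine ⟨?_, ?_⟩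
        · simpa using Ioc_subset_Icc_self hx
        · simp; linarith)
      exact hqM _ h3 h4 h5
    have hd : ∀ x ∈ Ioc (x₁ * T) b, ‖q ((x - Real.pi * I) / T)‖ ≤ M := by
      intro x hx
      obtain ⟨h3, h4, h5⟩ := hsubr (x - Real.pi * I) (by
        rw [mem_reProdIm, uIcc_of_le hab, uIcc_of_le (by linarith)]
        refine ⟨?_, ?_⟩
        · simpa using Ioc_subset_Icc_self hx
        · simp; linarith)
      exact hqM _ h3 h4 h5
    have := norm_rays_le (Φ := fun z => q (z / T)) ha0 hM0 le_rfl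
      (s := Ioc (x₁ * T) b) (fun x hx => by have := hu x hx; linarith)
      (fun x hx => by have := hd x hx; linarith) Ioc_subset_Ioi_self measurableSet_Ioc
    linarith
  -- conclusion
  have E12 : J b (fun z => S (z / T)) - m * ((Real.log T + grow (x₀ * T) : ℝ) : ℂ) =
      J a0 (fun z => G (z / T)) - m * J 1 log + m * (∫ x in Ioi b, rho (fun z => log (z / T - x₀)) x) -
      V (x₁ * T) (fun z => q (z / T)) - (∫ x in (x₁ * T)..b, rho (fun z => q (z / T)) x) -
      ∫ x in Ioi b, rho (fun z => G (z / T) - S (z / T)) x := by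
    rw [E9] at E8
    have E2' : J b (fun z => S (z / T)) = J a0 (fun z => G (z / T)) -
      (V b (fun z => G (z / T) - S (z / T)) + ∫ x in Ioi b, rho (fun z => G (z / T) - S (z / T)) x) := by
      have : J b (fun z => G (z / T) - S (z / T)) = V b (fun z => G (z / T) - S (z / T)) +
        ∫ x in Ioi b, rho (fun z => G (z / T) - S (z / T)) x := rfl
      rw [← this, E2]
      ring
    have E7' : V b (fun z => log (z / T - x₀)) + ∫ x in Ioi b, rho (fun z => log (z / T - x₀)) x =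
      J 1 log - Real.log T - grow (x₀ * T) := E7
    push_cast
    linear_combination E2' - m * E7' - E8
  have E13 : ‖J b (fun z => S (z / T)) - m * ((Real.log T + grow (x₀ * T) : ℝ) : ℂ)‖ ≤
      (Real.exp (Real.exp a0) + 1) * |CG| + |(m : ℝ)| * ‖J 1 log‖ + |(m : ℝ)| * 8 +
      Real.exp (Real.exp (x₁ * T)) * M + M + C3 := by
    rw [E12]
    refine (norm_sub_le _ _).trans (add_le_add ?_ E4)
    refine (norm_sub_le _ _).trans (add_le_add ?_ E11)
    refine (norm_sub_le _ _).trans (add_le_add ?_ E10)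
    refine (norm_add_le _ _).trans (add_le_add ?_ ?_)
    · refine (norm_sub_le _ _).trans (add_le_add E3' ?_)
      rw [norm_mul, Complex.norm_intCast]
    · rw [norm_mul, Complex.norm_intCast]
      gcongr
  refine E13.trans ?_
  set ee := Real.exp (Real.exp (x₁ * T)) with hee
  have h1e : 1 ≤ ee := Real.one_le_exp (Real.exp_pos _).le
  have hX : 0 ≤ (Real.exp (Real.exp a0) + 1) * |CG| := by positivity
  have hY : 0 ≤ |(m : ℝ)| * (‖J 1 log‖ + 8) := by positivity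
  nlinarith [mul_nonneg hX (sub_nonneg.2 h1e), mul_nonneg hY (sub_nonneg.2 h1e),
    mul_nonneg hM0 (sub_nonneg.2 h1e), mul_nonneg hC30 (sub_nonneg.2 h1e)]

end Pool.Agent.W524.RY
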