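import Pool.Agent.H21.L.R_seed8.W189.ML.Adm

/-! Hankel's formula for the reciprocal of the Gamma function, for complex arguments. -/

set_option autoImplicit false

namespace Pool.Agent.W524.RY

open Complex MeasureTheory Filter Topology Set
open scoped Interval
open Pool.Agent.W189.ML

theorem rho_cexp (v : ℂ) (x : ℝ) : rho (fun z => exp (-(z * v))) x =
    -(Complex.sin (Real.pi * v) / Real.pi) * (((Real.exp (-Real.exp x) : ℝ) : ℂ) * exp (-v * x)) := by
  unfold rho
  beta_reduce
  have h1 : exp (-((x + Real.pi * I) * v)) = exp (-v * x) * exp (-(Real.pi * v) * I) := by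
    rw [← Complex.exp_add]; congr 1; ring
  have h2 : exp (-((x - Real.pi * I) * v)) = exp (-v * x) * exp ((Real.pi * v) * I) := by
    rw [← Complex.exp_add]; congr 1; ring
  have h3 : exp (-(Real.pi * v : ℂ) * I) - exp ((Real.pi * v : ℂ) * I) =
      -2 * Complex.sin (Real.pi * v) * I := by
    rw [Complex.sin]
    ring_nf
    rw [I_sq]
    ring
  rw [h1, h2, ← mul_sub, h3]
  have hpi : (Real.pi : ℂ) ≠ 0 := by exact_mod_cast Real.pi_ne_zero
  have hI : I ≠ 0 := I_ne_zero
  field_simp

theorem norm_ray (v : ℂ) (x : ℝ) : ‖((Real.exp (-Real.exp x) : ℝ) : ℂ) * exp (-v * x)‖ =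
    Real.exp (-Real.exp x) * Real.exp (-v.re * x) := by
  rw [norm_mul, Complex.norm_real, Real.norm_eq_abs, Real.abs_exp, Complex.norm_exp]
  congr 2
  rw [Complex.re_mul_ofReal, Complex.neg_re]

theorem integrableOn_rho_cexp (a : ℝ) (v : ℂ) :
    IntegrableOn (rho fun z => exp (-(z * v))) (Ioi a) := by
  have h1 : (rho fun z => exp (-(z * v))) = fun x : ℝ =>
      -(Complex.sin (Real.pi * v) / Real.pi) * (((Real.exp (-Real.exp x) : ℝ) : ℂ) * exp (-v * x)) :=
    funext fun x => rho_cexp v x
  rw [h1]
  refine Integrable.const_mul ?_ _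
  refine Integrable.mono' (integrableOn_ray_exp a (-v.re)) ?_ (ae_of_all _ fun x => ?_)
  · exact (by fun_prop : Continuous fun x : ℝ =>
      ((Real.exp (-Real.exp x) : ℝ) : ℂ) * exp (-v * x)).aestronglyMeasurable
  · rw [norm_ray]

theorem J_cexp_shift (a b : ℝ) (v : ℂ) :
    J a (fun z => exp (-(z * v))) = J b (fun z => exp (-(z * v))) := by
  have hd : Differentiable ℂ fun z : ℂ => exp (-(z * v)) := by fun_prop
  rcases le_total a b with h | h
  · exact J_shift h hd.differentiableOn (integrableOn_rho_cexp a v)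
  · exact (J_shift h hd.differentiableOn (integrableOn_rho_cexp b v)).symm

theorem norm_V_cexp_le (a : ℝ) (v : ℂ) : ‖V a (fun z => exp (-(z * v)))‖ ≤
    Real.exp (Real.exp a) * (Real.exp (-v.re * a) * Real.exp (Real.pi * |v.im|)) := by
  refine norm_V_le fun y hy => ?_
  rw [Complex.norm_exp, ← Real.exp_add]
  apply Real.exp_le_exp.2
  have h1 : (-((((a : ℝ) : ℂ) + y * I) * v)).re = -v.re * a + y * v.im := by
    simp
    ring
  rw [h1]
  have h2 : y * v.im ≤ |y| * |v.im| := by
    rw [← abs_mul]
    exact le_abs_self _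
  have h3 : |y| * |v.im| ≤ Real.pi * |v.im| := mul_le_mul_of_nonneg_right hy (abs_nonneg _)
  linarith

theorem cgamma_int {v : ℂ} (hv : 0 < v.re) :
    Integrable (fun x : ℝ => ((Real.exp (-Real.exp x) : ℝ) : ℂ) * exp (v * x)) ∧
    ∫ x : ℝ, ((Real.exp (-Real.exp x) : ℝ) : ℂ) * exp (v * x) = Complex.Gamma v := by
  have himg : Real.exp '' univ = Ioi 0 := by
    rw [image_univ, Real.range_exp]
  have hd : ∀ x ∈ (univ : Set ℝ), HasDerivWithinAt Real.exp (Real.exp x) univ x := fun x _ =>
    (Real.hasDerivAt_exp x).hasDerivWithinAt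
  have h1 := integrableOn_image_iff_integrableOn_abs_deriv_smul MeasurableSet.univ hd
    Real.exp_injective.injOn (fun x : ℝ => ((Real.exp (-x) : ℝ) : ℂ) * (x : ℂ) ^ (v - 1))
  have h2 := integral_image_eq_integral_abs_deriv_smul MeasurableSet.univ hd
    Real.exp_injective.injOn (fun x : ℝ => ((Real.exp (-x) : ℝ) : ℂ) * (x : ℂ) ^ (v - 1))
  have h3 : (fun x : ℝ => |Real.exp x| • (((Real.exp (-Real.exp x) : ℝ) : ℂ) *
      ((Real.exp x : ℝ) : ℂ) ^ (v - 1))) =
      fun x : ℝ => ((Real.exp (-Real.exp x) : ℝ) : ℂ) * exp (v * x) := by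
    funext x
    have hx : ((Real.exp x : ℝ) : ℂ) ≠ 0 := by exact_mod_cast (Real.exp_pos x).ne'
    rw [Real.abs_exp, Complex.real_smul, Complex.cpow_def_of_ne_zero hx,
      ← Complex.ofReal_log (Real.exp_pos x).le, Real.log_exp, mul_left_comm]
    congr 1
    rw [Complex.ofReal_exp, ← Complex.exp_add]
    congr 1
    ring
  rw [himg, h3] at h1 h2
  rw [integrableOn_univ] at h1
  rw [setIntegral_univ] at h2
  refine ⟨h1.1 (Complex.GammaIntegral_convergent hv), ?_⟩
  rw [← h2, Complex.Gamma_eq_integral hv]
  rfl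

/-- Hankel's formula in the left half plane -/
theorem J_cexp_neg {v : ℂ} (h0 : v.re < 0) (a : ℝ) :
    J a (fun z => exp (-(z * v))) = (Complex.Gamma (1 + v))⁻¹ := by
  obtain ⟨hint, hval⟩ := cgamma_int (v := -v) (by simpa using h0)
  set g : ℝ → ℂ := rho fun z => exp (-(z * v)) with hg
  have hg' : g = fun x : ℝ =>
      -(Complex.sin (Real.pi * v) / Real.pi) * (((Real.exp (-Real.exp x) : ℝ) : ℂ) * exp (-v * x)) :=
    funext fun x => rho_cexp v x
  have hgi : Integrable g := by
    rw [hg']
    exact hint.const_mul _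
  have hgv : ∫ x, g x = -(Complex.sin (Real.pi * v) / Real.pi) * Complex.Gamma (-v) := by
    rw [hg', integral_const_mul, hval]
  have hlim : Tendsto (fun b : ℝ => J b (fun z => exp (-(z * v)))) atBot (𝓝 (0 + ∫ x, g x)) := by
    refine Tendsto.add ?_ ?_
    · refine squeeze_zero_norm (fun b => norm_V_cexp_le b v) ?_
      have e1 : Tendsto (fun b : ℝ => Real.exp (Real.exp b)) atBot (𝓝 (Real.exp 0)) :=
        (Real.continuous_exp.tendsto 0).comp Real.tendsto_exp_atBot
      have e2 : Tendsto (fun b : ℝ => Real.exp (-v.re * b)) atBot (𝓝 0) := by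
        refine Real.tendsto_exp_atBot.comp ?_
        exact tendsto_id.const_mul_atBot (by linarith)
      have := e1.mul (e2.mul_const (Real.exp (Real.pi * |v.im|)))
      simpa using this
    · exact (aecover_Ioi tendsto_id).integral_tendsto_of_countably_generated hgi
  have hconst : (fun b : ℝ => J b (fun z => exp (-(z * v)))) =
      fun _ => J a (fun z => exp (-(z * v))) := funext fun b => J_cexp_shift b a v
  rw [hconst] at hlim
  have := tendsto_nhds_unique hlim tendsto_const_nhds
  rw [← this, zero_add, hgv]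
  have h1 := Complex.Gamma_mul_Gamma_one_sub (-v)
  rw [sub_neg_eq_add] at h1
  have h2 : Complex.sin (Real.pi * -v) = - Complex.sin (Real.pi * v) := by
    rw [mul_neg, Complex.sin_neg]
  rw [h2] at h1
  have hpi : (Real.pi : ℂ) ≠ 0 := by exact_mod_cast Real.pi_ne_zero
  have hgn : Complex.Gamma (-v) ≠ 0 := Complex.Gamma_ne_zero_of_re_pos (by simpa using h0)
  by_cases hs : Complex.sin (Real.pi * v) = 0
  · rw [hs] at h1 ⊢
    simp only [neg_zero, div_zero, mul_eq_zero] at h1
    rcases h1 with h1 | h1
    · exact absurd h1 hgn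
    · rw [h1]; simp
  · have h3 : Complex.Gamma (1 + v) ≠ 0 := by
      intro h
      rw [h, mul_zero] at h1
      have h4 := div_ne_zero hpi (neg_ne_zero.2 hs)
      exact h4 h1.symm
    have h5 : Complex.Gamma (-v) * Complex.Gamma (1 + v) * Complex.sin (Real.pi * v) = -Real.pi := by
      rw [h1]
      field_simp
    apply eq_inv_of_mul_eq_one_left
    field_simp
    linear_combination -h5

/-- the recurrence, by partial integration -/
theorem J_cexp_rec (a : ℝ) (v : ℂ) : J a (fun z => exp (-(z * (v - 1)))) =
    v * J a (fun z => exp (-(z * v))) := by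
  set G : ℂ → ℂ := fun z => K z * exp (-(z * v)) with hG
  set G' : ℂ → ℂ := fun z => K z * exp (-(z * (v - 1))) - v * (K z * exp (-(z * v))) with hG'
  have hder : ∀ z, HasDerivAt G (G' z) z := by
    intro z
    have h1 : HasDerivAt K (K z * exp z) z := (Complex.hasDerivAt_exp (exp z)).comp z
      (Complex.hasDerivAt_exp z)
    have h2 : HasDerivAt (fun z : ℂ => exp (-(z * v))) (exp (-(z * v)) * (-(1 * v))) z :=
      ((hasDerivAt_id z).mul_const v).neg.cexp
    have h3 := h1.mul h2
    refine h3.congr_deriv ?_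
    rw [hG']
    have h4 : exp (-(z * (v - 1))) = exp z * exp (-(z * v)) := by
      rw [← Complex.exp_add]; congr 1; ring
    simp only
    rw [h4]
    ring
  have hGc : Continuous G' := by
    rw [hG']
    have := continuous_K
    fun_prop
  -- vertical part
  have hV : V a (fun z => exp (-(z * (v - 1)))) - v * V a (fun z => exp (-(z * v))) =
      (2 * Real.pi * I : ℂ)⁻¹ * (G (a + Real.pi * I) - G (a - Real.pi * I)) := by
    have h1 : ∫ y in (-Real.pi)..Real.pi, G' (a + y * I) * I =
        G (a + Real.pi * I) - G (a + ((-Real.pi : ℝ) : ℂ) * I) := by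
      refine intervalIntegral.integral_eq_sub_of_hasDerivAt
        (f := fun y : ℝ => G (a + y * I)) (fun y _ => ?_) ?_
      · have h2 : HasDerivAt (fun y : ℝ => (a : ℂ) + y * I) I y := by
          have := ((hasDerivAt_id y).ofReal_comp.mul_const I).const_add (a : ℂ)
          simpa using this
        exact (hder _).comp y h2
      · refine Continuous.intervalIntegrable ?_ _ _
        exact (hGc.comp (by fun_prop)).mul continuous_const
    have h2 : (a : ℂ) + ((-Real.pi : ℝ) : ℂ) * I = a - Real.pi * I := by push_cast; ring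
    rw [h2] at h1
    unfold V
    have hc1 : Continuous fun y : ℝ => K (a + y * I) * exp (-((a + y * I) * (v - 1))) := by
      have := continuous_K
      fun_prop
    have hc2 : Continuous fun y : ℝ => K (a + y * I) * exp (-((a + y * I) * v)) := by
      have := continuous_K
      fun_prop
    have h3 : ∫ y in (-Real.pi)..Real.pi, G' (a + y * I) * I =
        ((∫ y in (-Real.pi)..Real.pi, K (a + y * I) * exp (-((a + y * I) * (v - 1)))) -
        v * ∫ y in (-Real.pi)..Real.pi, K (a + y * I) * exp (-((a + y * I) * v))) * I := by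
      have hc3 : Continuous fun y : ℝ => v * (K (a + y * I) * exp (-((a + y * I) * v))) :=
        continuous_const.mul hc2
      rw [← intervalIntegral.integral_const_mul, ← intervalIntegral.integral_sub
        (hc1.intervalIntegrable _ _) (hc3.intervalIntegrable _ _),
        ← intervalIntegral.integral_mul_const]
    rw [h3] at h1
    rw [← h1]
    have hpi : (Real.pi : ℂ) ≠ 0 := by exact_mod_cast Real.pi_ne_zero
    have hI : I ≠ 0 := I_ne_zero
    generalize (∫ y in (-Real.pi)..Real.pi, K (a + y * I) * exp (-((a + y * I) * (v - 1)))) = A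
    generalize (∫ y in (-Real.pi)..Real.pi, K (a + y * I) * exp (-((a + y * I) * v))) = B
    field_simp
  -- the rays
  have hR : (∫ x in Ioi a, rho (fun z => exp (-(z * (v - 1)))) x) -
      v * (∫ x in Ioi a, rho (fun z => exp (-(z * v))) x) =
      -((2 * Real.pi * I : ℂ)⁻¹ * (G (a + Real.pi * I) - G (a - Real.pi * I))) := by
    rw [← integral_const_mul, ← integral_sub (integrableOn_rho_cexp a (v - 1))
      ((integrableOn_rho_cexp a v).const_mul _)]
    set f : ℝ → ℂ := fun x => (2 * Real.pi * I : ℂ)⁻¹ * (G (x + Real.pi * I) - G (x - Real.pi * I))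
      with hf
    have h1 : ∀ x : ℝ, rho (fun z => exp (-(z * (v - 1)))) x -
        v * rho (fun z => exp (-(z * v))) x =
        (2 * Real.pi * I : ℂ)⁻¹ * (G' (x + Real.pi * I) - G' (x - Real.pi * I)) := by
      intro x
      rw [hG']
      simp only [K_add', K_sub', rho]
      ring
    have h2 : ∀ x ∈ Ici a, HasDerivAt f
        ((2 * Real.pi * I : ℂ)⁻¹ * (G' (x + Real.pi * I) - G' (x - Real.pi * I))) x := by
      intro x _
      have e1 : HasDerivAt (fun x : ℝ => (x : ℂ) + Real.pi * I) 1 x := by
        have := (hasDerivAt_id x).ofReal_comp.add_const (Real.pi * I : ℂ)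
        simpa using this
      have e2 : HasDerivAt (fun x : ℝ => (x : ℂ) - Real.pi * I) 1 x := by
        have := (hasDerivAt_id x).ofReal_comp.sub_const (Real.pi * I : ℂ)
        simpa using this
      have e3 := (hder (x + Real.pi * I)).comp x e1
      have e4 := (hder (x - Real.pi * I)).comp x e2
      have e5 := (e3.sub e4).const_mul (2 * Real.pi * I : ℂ)⁻¹
      refine e5.congr_deriv ?_
      ring
    have h3 : Tendsto f atTop (𝓝 0) := by
      have e1 : ∀ x : ℝ, f x = rho (fun z => exp (-(z * v))) x := by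
        intro x
        rw [hf, hG]
        simp only [K_add', K_sub', rho]
        ring
      have e2 : Tendsto (fun x : ℝ => rho (fun z => exp (-(z * v))) x) atTop (𝓝 0) := by
        have e3 : (fun x : ℝ => Real.exp (-Real.exp x) * Real.exp (-v.re * x)) =O[atTop]
            fun x => Real.exp (-1 * x) := by
          have h := (ray_isBigO (-v.re + 1)).mul
            (Asymptotics.isBigO_refl (fun x : ℝ => Real.exp (-v.re * x)) atTop)
          refine h.trans (Asymptotics.isBigO_of_le _ fun x => ?_)
          rw [← Real.exp_add]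
          apply le_of_eq
          congr 2
          ring
        have e4 : Tendsto (fun x : ℝ => Real.exp (-1 * x)) atTop (𝓝 0) :=
          Real.tendsto_exp_atBot.comp (tendsto_id.const_mul_atTop_of_neg (by norm_num))
        have e5 := e3.trans_tendsto e4
        have e6 := e5.const_mul ‖-(Complex.sin (Real.pi * v) / Real.pi)‖
        rw [mul_zero] at e6
        refine squeeze_zero_norm (fun x => ?_) e6
        rw [rho_cexp, norm_mul, norm_ray]
      exact e2.congr fun x => (e1 x).symm
    have h4 := integral_Ioi_of_hasDerivAt_of_tendsto' h2 (by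
      have h5 : IntegrableOn (fun x : ℝ => rho (fun z => exp (-(z * (v - 1)))) x -
        v * rho (fun z => exp (-(z * v))) x) (Ioi a) :=
        (integrableOn_rho_cexp a (v - 1)).sub ((integrableOn_rho_cexp a v).const_mul _)
      exact h5.congr_fun (fun x _ => h1 x) measurableSet_Ioi) h3
    rw [setIntegral_congr_fun measurableSet_Ioi (fun x _ => h1 x), h4, zero_sub]
  unfold J
  linear_combination hV + hR

/-- **Hankel's formula** -/
theorem J_cexp (a : ℝ) (v : ℂ) :
    J a (fun z => exp (-(z * v))) = (Complex.Gamma (1 + v))⁻¹ := by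
  have key : ∀ n : ℕ, ∀ v : ℂ, v.re < n → J a (fun z => exp (-(z * v))) =
      (Complex.Gamma (1 + v))⁻¹ := by
    intro n
    induction n with
    | zero => exact fun v hv => J_cexp_neg (by simpa using hv) a
    | succ n ih =>
      intro v hv
      by_cases h0 : v = 0
      · have := J_exp_zero a
        rw [h0, add_zero, Complex.Gamma_one, inv_one, ← this]
        simp
      have h1 := ih (v - 1) (by push_cast at hv; simp; linarith)
      rw [J_cexp_rec] at h1
      have h3 : Complex.Gamma (1 + v) = v * Complex.Gamma v := by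
        rw [add_comm, Complex.Gamma_add_one v h0]
      have h4 : J a (fun z => exp (-(z * v))) = v⁻¹ * (Complex.Gamma (1 + (v - 1)))⁻¹ := by
        rw [← h1, ← mul_assoc, inv_mul_cancel₀ h0, one_mul]
      rw [h4, h3, show 1 + (v - 1) = v by ring, mul_inv]
  obtain ⟨n, hn⟩ := exists_nat_gt v.re
  exact key n v hn

end Pool.Agent.W524.RY
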